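import Pool.Agent.Helper28.WK.StB


/-!
# Project WK, module W2 (helper38): difference relations of the central component
-/

set_option autoImplicit false

open Pool.Agent.Helper14.CV Pool.Agent.Helper28.WK

namespace Pool.Agent.Helper38.WK

/-- The `(a+1)`-st difference of a polynomial of degree `a` vanishes. -/
private theorem diff_zero {S : Type} [CommRing S] (A B : S) (a : ℕ) :
    ∑ j ∈ Finset.range (a + 2), ((-1 : ℤ) ^ j * ((a + 1).choose j : ℤ)) •
      (A + (j : S) * B) ^ a = 0 := by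
  have h1 := fwdDiff_iter_sum_mul_pow_eq_zero (R := S) (n := a + 1)
    (fun k => B ^ k * A ^ (a - k) * ((a.choose k : ℕ) : S))
  have h2 : (fun r : S => ∑ k ∈ Finset.range (a + 1),
      (B ^ k * A ^ (a - k) * ((a.choose k : ℕ) : S)) * r ^ k) = fun r => (A + r * B) ^ a := by
    funext r
    rw [add_comm A, add_pow]
    refine Finset.sum_congr rfl fun k _ => ?_
    rw [mul_pow]; ring
  rw [h2] at h1
  have h3 := fwdDiff_iter_eq_sum_shift (1 : S) (fun r : S => (A + r * B) ^ a) (a + 1) 0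
  rw [h1] at h3
  simp only [Pi.zero_apply, zero_add, nsmul_eq_mul, mul_one] at h3
  have h4 : ∑ j ∈ Finset.range (a + 2), ((-1 : ℤ) ^ j * ((a + 1).choose j : ℤ)) •
      (A + (j : S) * B) ^ a = ((-1 : ℤ) ^ (a + 1)) • ∑ j ∈ Finset.range (a + 1 + 1),
      ((-1 : ℤ) ^ (a + 1 - j) * ((a + 1).choose j : ℤ)) • (A + (j : S) * B) ^ a := by
    rw [Finset.smul_sum]
    refine Finset.sum_congr rfl fun j hj => ?_
    rw [smul_smul]
    congr 1
    have hj' : j ≤ a + 1 := by have := Finset.mem_range.1 hj; omega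
    have e : (-1 : ℤ) ^ (a + 1) * (-1 : ℤ) ^ (a + 1 - j) = (-1) ^ j := by
      obtain ⟨d, hd⟩ := Nat.exists_eq_add_of_le hj'
      rw [hd, Nat.add_sub_cancel_left, pow_add, mul_assoc, ← pow_add, ← two_mul, pow_mul]
      simp
    rw [← mul_assoc, e]
  rw [h4, ← h3, smul_zero]

theorem hW2 : StW2 := by
  intro p _ a ν Φ hΦ
  constructor
  · intro h hh
    have e1 : ∀ j ∈ Finset.range (a + 2), EqC
        (((-1 : ℤ) ^ j * ((a + 1).choose j : ℤ)) • act 1 ((j : ℤ) * h) 0 1 (cp Φ a))
        (((-1 : ℤ) ^ j * ((a + 1).choose j : ℤ)) •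
          pr Φ ((Polynomial.X + ((j : ℕ) : Polynomial ℤ) * Polynomial.C h) ^ a)) := by
      intro j _
      have := hΦ.eqv 1 ((j : ℤ) * h) 0 1 (by ring) (hh.mul_left _) (dvd_zero _) a (by omega)
      have e : (Polynomial.C (1 : ℤ) * Polynomial.X + Polynomial.C ((j : ℤ) * h)) ^ a *
          (Polynomial.C (0 : ℤ) * Polynomial.X + Polynomial.C (1 : ℤ)) ^ (2 * a - a) =
          (Polynomial.X + ((j : ℕ) : Polynomial ℤ) * Polynomial.C h) ^ a := by
        simp
      rw [e] at this
      exact this.smul _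
    have e2 := EqC.sum (Finset.range (a + 2)) e1
    have e3 : (∑ j ∈ Finset.range (a + 2), ((-1 : ℤ) ^ j * ((a + 1).choose j : ℤ)) •
        pr Φ ((Polynomial.X + ((j : ℕ) : Polynomial ℤ) * Polynomial.C h) ^ a)) = 0 := by
      rw [Finset.sum_congr rfl fun j _ => (pr_smul Φ _ _).symm, ← pr_sum,
        diff_zero (S := Polynomial ℤ), pr_zero]
    rw [e3] at e2
    refine EqC.trans (EqC.of_eq fun x y _ => ?_) e2
    simp only [Nb, Finset.sum_apply, Pi.smul_apply, act, cp]
    refine Finset.sum_congr rfl fun j _ => ?_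
    congr 2 <;> ring
  · intro c hc
    have e1 : ∀ j ∈ Finset.range (a + 2), EqC
        (((-1 : ℤ) ^ j * ((a + 1).choose j : ℤ)) • act 1 0 ((j : ℤ) * c) 1 (cp Φ a))
        (((-1 : ℤ) ^ j * ((a + 1).choose j : ℤ)) • pr Φ (Polynomial.X ^ a *
          (1 + ((j : ℕ) : Polynomial ℤ) * (Polynomial.C c * Polynomial.X)) ^ a)) := by
      intro j _
      have := hΦ.eqv 1 0 ((j : ℤ) * c) 1 (by ring) (dvd_zero _) (hc.mul_left _) a (by omega)
      have e : (Polynomial.C (1 : ℤ) * Polynomial.X + Polynomial.C (0 : ℤ)) ^ a *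
          (Polynomial.C ((j : ℤ) * c) * Polynomial.X + Polynomial.C (1 : ℤ)) ^ (2 * a - a) =
          Polynomial.X ^ a *
          (1 + ((j : ℕ) : Polynomial ℤ) * (Polynomial.C c * Polynomial.X)) ^ a := by
        have h2 : 2 * a - a = a := by omega
        rw [h2]
        simp only [map_one, map_zero, map_mul, one_mul, add_zero, Polynomial.C_eq_natCast]
        congr 2
        ring
      rw [e] at this
      exact this.smul _
    have e2 := EqC.sum (Finset.range (a + 2)) e1
    have e3 : (∑ j ∈ Finset.range (a + 2), ((-1 : ℤ) ^ j * ((a + 1).choose j : ℤ)) •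
        pr Φ (Polynomial.X ^ a *
          (1 + ((j : ℕ) : Polynomial ℤ) * (Polynomial.C c * Polynomial.X)) ^ a)) = 0 := by
      rw [Finset.sum_congr rfl fun j _ => (pr_smul Φ _ _).symm, ← pr_sum]
      have h5 := diff_zero (S := Polynomial ℤ) 1 (Polynomial.C c * Polynomial.X) a
      have h6 : (∑ j ∈ Finset.range (a + 2), ((-1 : ℤ) ^ j * ((a + 1).choose j : ℤ)) •
          (Polynomial.X ^ a *
            (1 + ((j : ℕ) : Polynomial ℤ) * (Polynomial.C c * Polynomial.X)) ^ a)) =
          Polynomial.X ^ a * ∑ j ∈ Finset.range (a + 2),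
            ((-1 : ℤ) ^ j * ((a + 1).choose j : ℤ)) •
            (1 + ((j : ℕ) : Polynomial ℤ) * (Polynomial.C c * Polynomial.X)) ^ a := by
        rw [Finset.mul_sum]
        exact Finset.sum_congr rfl fun j _ => (mul_smul_comm _ _ _).symm
      rw [h6, h5, mul_zero, pr_zero]
    rw [e3] at e2
    refine EqC.trans (EqC.of_eq fun x y _ => ?_) e2
    simp only [Nc, Finset.sum_apply, Pi.smul_apply, act, cp]
    refine Finset.sum_congr rfl fun j _ => ?_
    congr 2 <;> ring

end Pool.Agent.Helper38.WK
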